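import Pool.Agent.BKN.Main

/-!
# The dimensions predicted by the conjecture of Broadhurst and Kreimer are nonnegative

Let `E = s^2 / (1 - s^2)`, `O = s^3 / (1 - s^2)`, `S = s^12 / ((1 - s^4) (1 - s^6))` and
`B = 1 - O t + S t^2 (1 - t^2)`.  The motivic conjecture of Broadhurst and Kreimer says that the
dimension `g_{N,d}` of the depth-graded piece of weight `N` and depth `d` of the algebra of motivic
multiple zeta values is the coefficient `D_{N,d}` of `s^N t^d` in `(1 + E t) / B`.

We prove that these numbers are nonnegative, that for `d ≥ 1` the number `D_{N,d}` is positive if and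
only if `N ≥ 3 d - 1`, and that `D_{N,d}` is at least the coefficient of `s^N` in `T^d` where
`T = (s^3 + s^5 + s^9) / (1 - s^12)`.

Proof.  Let `1 / B` be the sum of the `c_d t^d`, so `c_d = O c_(d-1) - S c_(d-2) + S c_(d-4)`.  Split
`O = T + U` with `T` as above (the exponents 3, 5, 9 modulo 12) and
`U = (s^7 + s^11 + s^13) / (1 - s^12)`.  Then
`T U - S = (s^10 + 2 s^16) / (1 - s^12)^2 + s^14 / (1 - s^12)` has nonnegative coefficients.
By induction `c_(d+1) - T c_d` has nonnegative coefficients, since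
`c_(d+2) - T c_(d+1) = U (c_(d+1) - T c_d) + (T U - S) c_d + S c_(d-2)`.
-/

set_option autoImplicit false

namespace Pool.Agent.Results.MP_a6e4a6_nt.PredictedDimensions

open PowerSeries

/-- Let `E = s^2 / (1 - s^2)`, `O = s^3 / (1 - s^2)`, `S = s^12 / ((1 - s^4) (1 - s^6))` and let `G` be
the power series `(1 + E t) / (1 - O t + S t^2 (1 - t^2))` in `ℤ⟦s⟧⟦t⟧`.  All coefficients of `G` are
nonnegative, for `d ≥ 1` the coefficient of `s^N t^d` is positive if and only if `N ≥ 3 d - 1`, and
it is at least the coefficient of `s^N` in the power `T^d` of `T = (s^3 + s^5 + s^9) / (1 - s^12)`. -/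
theorem result :
    ∀ (E O S : PowerSeries ℤ) (G : PowerSeries (PowerSeries ℤ)),
    (1 - X ^ 2) * E = X ^ 2 →
    (1 - X ^ 2) * O = X ^ 3 →
    (1 - X ^ 4) * (1 - X ^ 6) * S = X ^ 12 →
    (1 - C O * X + C S * X ^ 2 * (1 - X ^ 2)) * G = 1 + C E * X →
    (∀ N d : ℕ, 0 ≤ coeff N (coeff d G)) ∧
    (∀ N d : ℕ, 1 ≤ d → (0 < coeff N (coeff d G) ↔ 3 * d ≤ N + 1)) ∧
    (∀ T : PowerSeries ℤ, (1 - X ^ 12) * T = X ^ 3 + X ^ 5 + X ^ 9 →
      ∀ N d : ℕ, coeff N (T ^ d) ≤ coeff N (coeff d G)) := by
  intro E O S G hE hO hS hG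
  have hc := BKN.coeff_G hG
  have hEe : E = X ^ 2 * BKN.K 2 := BKN.eq_of_mul 2 (by norm_num) hE
  have hEn : BKN.NN E := by
    rw [hEe]
    exact (BKN.NN.xpow 2).mul (BKN.NN.K 2)
  have hE2 : BKN.NN (E - X ^ 2) := by
    intro n
    rw [hEe, map_sub, coeff_X_pow_mul', coeff_X_pow]
    by_cases h : n = 2
    · subst h
      rw [BKN.K, coeff_mk]
      norm_num
    · rw [if_neg h]
      split_ifs
      · rw [BKN.K, coeff_mk]
        split_ifs <;> norm_num
      · norm_num
  have hsec : ∀ d, BKN.NN (if 1 ≤ d then E * BKN.c O S (d - 1) else 0) := by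
    intro d
    split_ifs
    · exact hEn.mul (BKN.main hO hS _).1
    · exact BKN.NN.zero
  refine ⟨?_, ?_, ?_⟩
  · intro N d
    rw [hc]
    exact ((BKN.main hO hS d).1.add (hsec d)) N
  · intro N d hd
    obtain ⟨d, rfl⟩ : ∃ e, d = e + 1 := ⟨d - 1, by omega⟩
    rw [hc, if_pos hd, Nat.add_sub_cancel, map_add]
    constructor
    · intro hpos
      by_contra hlt
      push Not at hlt
      have h1 : coeff N (BKN.c O S (d + 1)) = 0 :=
        X_pow_dvd_iff.1 (BKN.dvd hO hS (d + 1)) N (by omega)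
      have h2 : X ^ (2 + 3 * d) ∣ E * BKN.c O S d := by
        rw [pow_add]
        exact mul_dvd_mul ⟨_, hEe⟩ (BKN.dvd hO hS d)
      have h3 : coeff N (E * BKN.c O S d) = 0 := X_pow_dvd_iff.1 h2 N (by omega)
      rw [h1, h3] at hpos
      simp at hpos
    · intro hN
      have n1 : 0 ≤ coeff N (BKN.c O S (d + 1)) := (BKN.main hO hS (d + 1)).1 N
      have n2 : 0 ≤ coeff N (E * BKN.c O S d) := (hEn.mul (BKN.main hO hS d).1) N
      rcases Nat.even_or_odd' (N - (3 * d + 2)) with ⟨k, hk | hk⟩
      · have h1 : coeff (N - 2) (BKN.c O S d) ≤ coeff N (E * BKN.c O S d) := by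
          have h2 := (hE2.mul (BKN.main hO hS d).1) N
          rw [sub_mul, map_sub, coeff_X_pow_mul', if_pos (by omega)] at h2
          linarith
        rcases Nat.eq_zero_or_pos d with h0 | h0
        · subst h0
          have e0 : BKN.c O S 0 = 1 := rfl
          have h3 : 0 < coeff N (E * BKN.c O S 0) := by
            rw [e0, mul_one, hEe, coeff_X_pow_mul', if_pos (by omega), BKN.K, coeff_mk, if_pos]
            · norm_num
            · omega
          linarith
        · obtain ⟨e, rfl⟩ : ∃ e, d = e + 1 := ⟨d - 1, by omega⟩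
          have h3 := BKN.pos hO hS e k
          have e3 : N - 2 = 3 * (e + 1) + 2 * k := by omega
          rw [e3] at h1
          linarith
      · have h3 := BKN.pos hO hS d k
        have e3 : N = 3 * (d + 1) + 2 * k := by omega
        rw [← e3] at h3
        linarith
  · intro T hT N d
    have e : T = BKN.T := BKN.eq_of_mul 12 (by norm_num) hT
    rw [hc, e]
    have h := ((BKN.lower hO hS d).add (hsec d)) N
    have h2 : BKN.c O S d - BKN.T ^ d + (if 1 ≤ d then E * BKN.c O S (d - 1) else 0) =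
        (BKN.c O S d + if 1 ≤ d then E * BKN.c O S (d - 1) else 0) - BKN.T ^ d := by ring
    rw [h2, map_sub] at h
    linarith

end Pool.Agent.Results.MP_a6e4a6_nt.PredictedDimensions
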